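import Pool.Agent.N70.EP.Stm3
import Pool.Agent.N891.EP.Aut

/-!
# EP/CMP: the inner automorphisms of `G ≀ A_n` have a complement
-/

set_option autoImplicit false

namespace Pool.Agent.N478.EP

open Pool.Agent.H391R2 Pool.Agent.H391R2.T4 Pool.Agent.Y793
  Pool.Agent.N600.UK Pool.Agent.N70.EP Pool.Agent.N891.EP
open Pool.Agent.TH59.WX hiding sg

section

variable {G : Type} [Group G] {n : ℕ}

/-- an element which commutes with the base group is trivial -/
theorem triv_of_comm [Nontrivial G] (hZ : ∀ z : G, (∀ g : G, z * g = g * z) → z = 1)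
    (y : AWr G n) (h : ∀ k g, y * sg k g = sg k g * y) : y = 1 := by
  obtain ⟨g₀, hg₀⟩ := exists_ne (1 : G)
  have hr : y.1.right = 1 := by
    apply Equiv.ext
    intro k
    exact fix_of_comm' _ k g₀ hg₀ (h k g₀)
  refine aw_ext (fun k => ?_) hr
  refine hZ _ fun g => ?_
  have h4 := congrArg (fun y : AWr G n => y.1.left k) (h k g)
  simp only [bml _ _ hr, bml _ _ (sg_right k g)] at h4
  have h5 : (sg k g : AWr G n).1.left k = g := sgl_left_self k g
  rw [h5] at h4
  exact h4

theorem rel_inj' [Nontrivial G] (hZ : ∀ z : G, (∀ g : G, z * g = g * z) → z = 1)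
    (a b : MulAut (AWr G n)) (d : Wr (MulAut G) n) (ha : Rel' a d) (hb : Rel' b d) : a = b := by
  apply MulEquiv.ext
  intro x
  have key : ∀ (a : MulAut (AWr G n)), Rel' a d → ∀ i g,
      a x * sg (d.right i) (d.left (d.right i) g) * (a x)⁻¹ =
        a (x * sg i g * x⁻¹) := by
    intro a ha i g
    rw [map_mul, map_mul, map_inv, ha i g]
  have hconj : ∀ i g, ∃ k g', x * sg i g * x⁻¹ = sg k g' := by
    intro i g
    exact ⟨_, _, rel_conj' x i g⟩
  have h1 : ∀ i g, a x * sg (d.right i) (d.left (d.right i) g) * (a x)⁻¹ =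
      b x * sg (d.right i) (d.left (d.right i) g) * (b x)⁻¹ := by
    intro i g
    rw [key a ha, key b hb]
    obtain ⟨k, g', hk⟩ := hconj i g
    rw [hk, ha, hb]
  have h2 : ∀ k g, ((b x)⁻¹ * a x) * sg k g = sg k g * ((b x)⁻¹ * a x) := by
    intro k g
    have h3 := h1 (d.right⁻¹ k) ((d.left k)⁻¹ g)
    have h4 : d.right (d.right⁻¹ k) = k := by simp
    rw [h4, MulAut.apply_inv_self, mul_inv_eq_iff_eq_mul] at h3
    rw [mul_assoc, h3]
    group
  exact (inv_mul_eq_one.1 (triv_of_comm hZ _ h2)).symm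

/-- the homomorphism to the wreath product with `Aut G` -/
theorem exists_D2 [Finite G] [Nontrivial G] (hn : 2 * (Nat.card G + 4) ≤ n)
    (hZ : ∀ z : G, (∀ g : G, z * g = g * z) → z = 1) :
    ∃ D : MulAut (AWr G n) →* Wr (MulAut G) n, (∀ a, Rel' a (D a)) ∧
      (∀ w : AWr G n, D (MulAut.conj w) = cm G n w.1) ∧
      ∀ a j k, cls G ((D a).left j) = cls G ((D a).left k) := by
  classical
  choose f hf using exists_rel' (G := G) (n := n) hn hZ
  let D : MulAut (AWr G n) →* Wr (MulAut G) n := MonoidHom.mk' f (fun a b =>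
    rel_unique' (a * b) _ _ (hf _) (rel_mul' a b _ _ (hf a) (hf b)))
  have hD : ∀ a, Rel' a (D a) := hf
  have hDc : ∀ w : AWr G n, D (MulAut.conj w) = cm G n w.1 :=
    fun w => rel_unique' _ _ _ (hD _) (rel_conj' w)
  refine ⟨D, hD, hDc, fun a j k => ?_⟩
  obtain ⟨σ, hσ, hσ2⟩ := exists_even (by omega) ((D a).right⁻¹ k) ((D a).right⁻¹ j)
  let w : AWr G n := evn σ hσ
  have h1 : a * MulAut.conj w * a⁻¹ = MulAut.conj (a w) := by
    apply MulEquiv.ext
    intro x
    rw [MulAut.mul_apply, MulAut.mul_apply, MulAut.conj_apply, MulAut.conj_apply, map_mul,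
      map_mul, MulAut.apply_inv_self, map_inv]
  have h2 := congrArg D h1
  rw [map_mul, map_mul, map_inv, hDc, hDc] at h2
  have h3 := congrArg (fun x : Wr (MulAut G) n => cls G (x.left j)) h2
  simp only [wr_mul_left, wr_inv_left, wr_mul_right, map_mul, map_inv, cm_left, cm_right,
    cls_conj, mul_one] at h3
  have h4 : (D a).right (((D a).right * w.1.right)⁻¹ j) = k := by
    change (D a).right (((D a).right * σ)⁻¹ j) = k
    rw [mul_inv_rev, Equiv.Perm.mul_apply]
    change (D a).right (σ⁻¹ ((D a).right⁻¹ j)) = k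
    rw [← hσ2]
    simp
  rw [h4] at h3
  exact mul_inv_eq_one.1 h3

theorem act_right (hZ : ∀ z : G, (∀ g : G, z * g = g * z) → z = 1) (d : PP G n) (x : Wr G n) :
    (act hZ d x).right = (d : Wr (MulAut G) n).right * x.right *
      ((d : Wr (MulAut G) n).right)⁻¹ := by
  have h1 := congrArg (fun z : Wr (MulAut G) n => z.right) (act_spec hZ d x)
  simp only [wr_mul_right, cm_right, SemidirectProduct.inv_right] at h1
  exact h1

theorem act_mem (hZ : ∀ z : G, (∀ g : G, z * g = g * z) → z = 1) (d : PP G n) {x : Wr G n}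
    (hx : x ∈ AWr G n) : act hZ d x ∈ AWr G n := by
  rw [mem_AWr] at hx ⊢
  rw [act_right, map_mul, map_mul, hx, mul_one, map_inv, mul_inv_cancel]

/-- the action on `G ≀ A_n` -/
noncomputable def actA (hZ : ∀ z : G, (∀ g : G, z * g = g * z) → z = 1) :
    PP G n →* MulAut (AWr G n) :=
  MonoidHom.mk' (fun d =>
    { toFun := fun x => ⟨act hZ d x.1, act_mem hZ d x.2⟩
      invFun := fun x => ⟨act hZ d⁻¹ x.1, act_mem hZ d⁻¹ x.2⟩
      left_inv := fun x => Subtype.ext (by
        change act hZ d⁻¹ (act hZ d x.1) = x.1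
        rw [map_inv, MulAut.inv_apply_self])
      right_inv := fun x => Subtype.ext (by
        change act hZ d (act hZ d⁻¹ x.1) = x.1
        rw [map_inv, MulAut.apply_inv_self])
      map_mul' := fun x y => Subtype.ext (by
        change act hZ d (x.1 * y.1) = act hZ d x.1 * act hZ d y.1
        rw [map_mul]) }) (fun d e => by
    apply MulEquiv.ext
    intro x
    apply Subtype.ext
    change act hZ (d * e) x.1 = act hZ d (act hZ e x.1)
    rw [map_mul, MulAut.mul_apply])

theorem actA_rel (hZ : ∀ z : G, (∀ g : G, z * g = g * z) → z = 1) (d : PP G n) :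
    Rel' (actA hZ d) d := by
  intro i g
  apply Subtype.ext
  exact act_rel hZ d i g

end

/-- EP/CMP -/
theorem t_cmp : St_cmp := by
  intro G _ _ _ hZ ⟨C, hC⟩ n hn
  classical
  refine ⟨fun z hz => triv_of_comm hZ z fun k g => hz _, ?_⟩
  obtain ⟨D, hD, hDc, hDcl⟩ := exists_D2 (G := G) (n := n) hn hZ
  have hDinj : Function.Injective D := fun a b h => rel_inj' hZ a b (D a) (hD a) (h ▸ hD b)
  have hDa : ∀ q : PP G n, D (actA hZ q) = q := fun q =>
    rel_unique' _ _ _ (hD _) (actA_rel hZ q)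
  let i₀ : Fin n := ⟨0, by omega⟩
  let i₁ : Fin n := ⟨1, by omega⟩
  have hi : i₀ ≠ i₁ := by
    intro h
    exact absurd (congrArg Fin.val h) (by norm_num [i₀, i₁])
  obtain ⟨s, hs⟩ : ∃ s : Equiv.Perm (Fin n), s = Equiv.swap i₀ i₁ := ⟨_, rfl⟩
  have hss : s * s = 1 := by rw [hs, Equiv.swap_mul_self]
  have hsi : s⁻¹ = s := inv_eq_of_mul_eq_one_left hss
  have hsg : Equiv.Perm.sign s = -1 := by rw [hs, Equiv.Perm.sign_swap hi]
  -- the complement in `PP`
  let Q : Subgroup (PP G n) :=
    { carrier := {d | (∃ c ∈ C, ∀ i, (d : Wr (MulAut G) n).left i = c) ∧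
        ((d : Wr (MulAut G) n).right = 1 ∨ (d : Wr (MulAut G) n).right = s)}
      one_mem' := ⟨⟨1, one_mem _, fun i => rfl⟩, Or.inl rfl⟩
      mul_mem' := by
        rintro a b ⟨⟨c, hc, hc'⟩, ha⟩ ⟨⟨c₂, hc₂, hc₂'⟩, hb⟩
        refine ⟨⟨c * c₂, mul_mem hc hc₂, fun i => ?_⟩, ?_⟩
        · change ((a : Wr (MulAut G) n) * (b : Wr (MulAut G) n)).left i = _
          rw [wr_mul_left, hc', hc₂']
        · change ((a : Wr (MulAut G) n) * (b : Wr (MulAut G) n)).right = 1 ∨
            ((a : Wr (MulAut G) n) * (b : Wr (MulAut G) n)).right = s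
          rw [wr_mul_right]
          rcases ha with ha | ha <;> rcases hb with hb | hb <;> rw [ha, hb]
          · left; rw [mul_one]
          · right; rw [one_mul]
          · right; rw [mul_one]
          · left; exact hss
      inv_mem' := by
        rintro a ⟨⟨c, hc, hc'⟩, ha⟩
        refine ⟨⟨c⁻¹, inv_mem hc, fun i => ?_⟩, ?_⟩
        · change ((a : Wr (MulAut G) n)⁻¹).left i = _
          rw [wr_inv_left, hc']
        · change ((a : Wr (MulAut G) n)⁻¹).right = 1 ∨ ((a : Wr (MulAut G) n)⁻¹).right = s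
          rw [SemidirectProduct.inv_right]
          rcases ha with ha | ha <;> rw [ha]
          · left; exact inv_one
          · right; exact hsi }
  refine ⟨Q.map (actA hZ), ?_⟩
  constructor
  · rw [Subgroup.disjoint_def]
    rintro x ⟨q, hq, rfl⟩ ⟨w, hw⟩
    have h1 : (q : Wr (MulAut G) n) = cm G n w.1 := by
      rw [← hDa q, ← hw, hDc]
    obtain ⟨⟨c, hc, hc'⟩, hq2⟩ := hq
    have h2 : c = 1 := by
      have h3 : c ∈ (MulAut.conj : G →* MulAut G).range := by
        refine ⟨w.1.left i₀, ?_⟩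
        rw [← hc' i₀, h1]
        rfl
      exact Subgroup.disjoint_def.mp hC.disjoint hc h3
    have h4 : (q : Wr (MulAut G) n).right = 1 := by
      rcases hq2 with h | h
      · exact h
      · exfalso
        have h5 : Equiv.Perm.sign (q : Wr (MulAut G) n).right = 1 := by
          rw [h1, cm_right]
          exact w.2
        rw [h, hsg] at h5
        exact absurd h5 (by decide)
    have h6 : q = 1 := by
      apply Subtype.ext
      refine SemidirectProduct.ext (funext fun i => ?_) h4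
      rw [hc' i, h2]
      rfl
    rw [h6, map_one]
  · rw [codisjoint_iff_le_sup]
    intro a _
    have h0 : (D a).left i₀ ∈ C ⊔ (MulAut.conj : G →* MulAut G).range := by
      rw [hC.sup_eq_top]
      exact Subgroup.mem_top _
    obtain ⟨c, hc, u, ⟨g, hg⟩, hcu⟩ := Subgroup.mem_sup_of_normal_right.mp h0
    have h1 : ∀ i, cls G ((D a).left i) = cls G c := by
      intro i
      rw [hDcl a i i₀, ← hcu, map_mul, ← hg, cls_conj, mul_one]
    obtain ⟨τ, hτ, hτ2⟩ : ∃ τ : Equiv.Perm (Fin n), (τ = 1 ∨ τ = s) ∧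
        Equiv.Perm.sign τ = Equiv.Perm.sign (D a).right := by
      rcases Int.units_eq_one_or (Equiv.Perm.sign (D a).right) with h | h
      · exact ⟨1, Or.inl rfl, by rw [h, map_one]⟩
      · exact ⟨s, Or.inr rfl, by rw [h, hsg]⟩
    let q : PP G n := ⟨⟨fun _ => c, τ⟩, fun _ _ => rfl⟩
    have hq : q ∈ Q := ⟨⟨c, hc, fun _ => rfl⟩, hτ⟩
    have h2 : (q : Wr (MulAut G) n)⁻¹ * D a ∈ (cm G n).range := by
      rw [mem_cm]
      intro i
      rw [wr_mul_left, wr_inv_left, map_mul, map_inv, h1]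
      exact inv_mul_cancel _
    obtain ⟨y, hy⟩ := h2
    have hy2 : Equiv.Perm.sign y.right = 1 := by
      have h3 : y.right = ((q : Wr (MulAut G) n)⁻¹ * D a).right := by rw [← hy, cm_right]
      rw [h3, wr_mul_right, SemidirectProduct.inv_right, map_mul, map_inv]
      change (Equiv.Perm.sign τ)⁻¹ * _ = 1
      rw [hτ2, inv_mul_cancel]
    have h4 : a = actA hZ q * MulAut.conj (⟨y, hy2⟩ : AWr G n) := by
      apply hDinj
      rw [map_mul, hDa, hDc]
      change D a = (q : Wr (MulAut G) n) * cm G n y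
      rw [hy, mul_inv_cancel_left]
    rw [h4]
    exact mul_mem (Subgroup.mem_sup_left ⟨q, hq, rfl⟩) (Subgroup.mem_sup_right ⟨_, rfl⟩)

end Pool.Agent.N478.EP

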